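import Pool.Agent.P.MP_c4753b_co.Pack3
import Pool.Agent.P.MP_c4753b_co.Low2

/-!
Three is the least dimension in which some convex body has translative packing density strictly
larger than its lattice packing density.
-/

namespace Pool.Agent.Results.MP_c4753b_co.Least

open Pool.Agent.P.MP_c4753b_co

theorem result : IsLeast {d : ℕ | ∃ K : Set (EuclideanSpace ℝ (Fin d)), IsCompact K ∧
    Convex ℝ K ∧ (interior K).Nonempty ∧ deltaL K < deltaT K} 3 := by
  refine ⟨Three.main3, ?_⟩
  rintro d ⟨K, hK, hc, hi, h⟩
  by_contra hd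
  obtain rfl | rfl | rfl : d = 0 ∨ d = 1 ∨ d = 2 := by omega
  · exact absurd (Plane.dim_zero hK hc hi) (not_le.2 h)
  · exact absurd (Plane.dim_one hK hc hi) (not_le.2 h)
  · exact absurd (Plane.dim_two hK hc hi) (not_le.2 h)

end Pool.Agent.Results.MP_c4753b_co.Least
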